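import Pool.Agent.Helper40.MR.Defs

set_option autoImplicit false

/-!
Module DENS: density of the integers without prime factors in an interval (Turan-Kubilius).
-/

open Finset MeasureTheory
open scoped BigOperators Nat

namespace Pool.Agent.Helper40.MR

theorem dens_mem {X : ℝ} (hX : 0 ≤ X) (n : ℕ) :
    n ∈ IocN X (2 * X) ↔ X < n ∧ (n : ℝ) ≤ 2 * X := by
  unfold IocN
  rw [mem_Ioc, Nat.floor_lt hX, Nat.le_floor_iff (by linarith)]

/-- number of multiples of `d` in `(X, 2 X]` -/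
theorem dens_mult {X : ℝ} (hX : 0 ≤ X) (d : ℕ) (hd : 1 ≤ d) :
    X / d - 1 ≤ ((IocN X (2 * X)).filter fun n => d ∣ n).card ∧
      (((IocN X (2 * X)).filter fun n => d ∣ n).card : ℝ) ≤ X / d + 1 := by
  have hab : ⌊X⌋₊ ≤ ⌊2 * X⌋₊ := Nat.floor_mono (by linarith)
  have h1 : ((IocN X (2 * X)).filter fun n => d ∣ n).card + ⌊X⌋₊ / d = ⌊2 * X⌋₊ / d := by
    rw [← Nat.Ioc_filter_dvd_card_eq_div, ← Nat.Ioc_filter_dvd_card_eq_div,
      ← card_union_of_disjoint]
    · congr 1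
      unfold IocN
      ext n
      simp only [mem_union, mem_filter, mem_Ioc]
      constructor
      · rintro (⟨⟨h1, h2⟩, h3⟩ | ⟨⟨h1, h2⟩, h3⟩)
        · exact ⟨⟨by omega, h2⟩, h3⟩
        · exact ⟨⟨h1, by omega⟩, h3⟩
      · rintro ⟨⟨h1, h2⟩, h3⟩
        by_cases h : n ≤ ⌊X⌋₊
        · exact Or.inr ⟨⟨h1, h⟩, h3⟩
        · exact Or.inl ⟨⟨by omega, h2⟩, h3⟩
    · unfold IocN
      rw [disjoint_left]
      intro n hn1 hn2
      rw [mem_filter, mem_Ioc] at hn1 hn2
      omega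
  rw [← Nat.floor_div_natCast, ← Nat.floor_div_natCast] at h1
  have h2 : (((IocN X (2 * X)).filter fun n => d ∣ n).card : ℝ) + (⌊X / d⌋₊ : ℝ) =
      (⌊2 * X / d⌋₊ : ℝ) := by exact_mod_cast h1
  have hdR : (0 : ℝ) < d := by exact_mod_cast hd
  have h3 := Nat.floor_le (show 0 ≤ X / d by positivity)
  have h4 := Nat.lt_floor_add_one (X / d)
  have h5 := Nat.floor_le (show 0 ≤ 2 * X / d by positivity)
  have h6 := Nat.lt_floor_add_one (2 * X / d)
  have h7 : 2 * X / d = X / d + X / d := by ring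
  constructor <;> linarith

theorem dens_sum {P Q : ℝ} (hPQ : P < Q) :
    ∑ p ∈ PrL Q, 1 / (p : ℝ) = ∑ p ∈ PrL P, 1 / (p : ℝ) + ∑ p ∈ PrI P Q, 1 / (p : ℝ) := by
  have hab : ⌊P⌋₊ ≤ ⌊Q⌋₊ := Nat.floor_mono hPQ.le
  rw [← sum_union]
  · congr 1
    unfold PrL PrI IocN
    ext n
    simp only [mem_union, mem_filter, mem_Ioc, mem_Icc]
    constructor
    · rintro ⟨⟨h1, h2⟩, h3⟩
      by_cases h : n ≤ ⌊P⌋₊
      · exact Or.inl ⟨⟨h1, h⟩, h3⟩
      · exact Or.inr ⟨⟨by omega, h2⟩, h3⟩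
    · rintro (⟨⟨h1, h2⟩, h3⟩ | ⟨⟨h1, h2⟩, h3⟩)
      · exact ⟨⟨h1, by omega⟩, h3⟩
      · exact ⟨⟨by omega, h2⟩, h3⟩
  · unfold PrL PrI IocN
    rw [disjoint_left]
    intro n hn1 hn2
    simp only [mem_filter, mem_Ioc, mem_Icc] at hn1 hn2
    omega

theorem dens_two {P : ℝ} (hP2 : 2 ≤ P) (hP3 : P < 3) :
    ∑ p ∈ PrL P, 1 / (p : ℝ) ≤ 1 := by
  have h1 : ⌊P⌋₊ = 2 := by
    rw [Nat.floor_eq_iff (by linarith)]
    norm_num
    exact ⟨hP2, by linarith⟩
  unfold PrL
  rw [h1]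
  have h2 : (Icc 1 2).filter Nat.Prime = {2} := by decide
  rw [h2, sum_singleton]
  norm_num

/-- the logarithm is controlled by the sum of the reciprocals -/
theorem dens_log (h : ST_MER) : ∃ C : ℝ, 0 < C ∧ ∀ P Q : ℝ, 2 ≤ P → P < Q →
    Real.log (Real.log Q / Real.log P) ≤ ∑ p ∈ PrI P Q, 1 / (p : ℝ) + C := by
  obtain ⟨C, hC, hM⟩ := h
  refine ⟨2 * C + 2, by linarith, fun P Q hP hPQ => ?_⟩
  have hlP : 0 < Real.log P := Real.log_pos (by linarith)
  have hlQ : 0 < Real.log Q := Real.log_pos (by linarith)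
  have hlog2 : (1 / 2 : ℝ) ≤ Real.log 2 := by
    have := Real.log_two_gt_d9; linarith
  have hlP2 : 1 / 2 ≤ Real.log P := hlog2.trans (Real.log_le_log (by norm_num) hP)
  have hW : 0 ≤ ∑ p ∈ PrI P Q, 1 / (p : ℝ) := sum_nonneg fun _ _ => by positivity
  have hloglog : -1 ≤ Real.log (Real.log P) := by
    rw [Real.le_log_iff_exp_le hlP]
    refine le_trans ?_ hlP2
    rw [Real.exp_neg, inv_le_comm₀ (Real.exp_pos 1) (by norm_num)]
    have := Real.exp_one_gt_d9
    norm_num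
    linarith
  rw [Real.log_div hlQ.ne' hlP.ne']
  by_cases hQ3 : Q < 3
  · have h1 : Real.log (Real.log Q) ≤ 1 := by
      have h2 : Real.log Q ≤ Q - 1 := Real.log_le_sub_one_of_pos (by linarith)
      have h3 : Real.log (Real.log Q) ≤ Real.log Q - 1 := Real.log_le_sub_one_of_pos hlQ
      linarith
    linarith
  · push Not at hQ3
    have h1 := (abs_le.1 (hM Q hQ3).1).1
    rw [dens_sum hPQ] at h1
    by_cases hP3 : P < 3
    · have h2 := dens_two hP hP3
      linarith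
    · push Not at hP3
      have h2 := (abs_le.1 (hM P hP3).1).2
      linarith

open Classical in
/-- the variance -/
theorem dens_var {P Q X : ℝ} (hP : 2 ≤ P) (hPQ : P < Q) (hQX : Q ^ 2 ≤ X) :
    ∑ n ∈ IocN X (2 * X), (((PrI P Q).filter fun p => p ∣ n).card -
      ∑ p ∈ PrI P Q, 1 / (p : ℝ)) ^ 2 ≤ 4 * X * (∑ p ∈ PrI P Q, 1 / (p : ℝ) + 1) := by
  have hQ2 : 2 < Q := by linarith
  have hX0 : 0 ≤ X := by nlinarith
  have hQX' : Q ≤ X := by nlinarith
  set W := ∑ p ∈ PrI P Q, 1 / (p : ℝ) with hW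
  have hpr : ∀ p ∈ PrI P Q, p.Prime := fun p hp => (mem_filter.1 hp).2
  have hcard : ((PrI P Q).card : ℝ) ≤ Q := by
    have h1 : (PrI P Q).card ≤ ⌊Q⌋₊ := by
      refine (card_filter_le _ _).trans ?_
      unfold IocN
      rw [Nat.card_Ioc]
      exact Nat.sub_le _ _
    calc ((PrI P Q).card : ℝ) ≤ (⌊Q⌋₊ : ℝ) := by exact_mod_cast h1
      _ ≤ Q := Nat.floor_le (by linarith)
  have hW0 : 0 ≤ W := sum_nonneg fun _ _ => by positivity
  have hWcard : W ≤ (PrI P Q).card := by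
    rw [hW]
    calc ∑ p ∈ PrI P Q, 1 / (p : ℝ) ≤ ∑ p ∈ PrI P Q, (1 : ℝ) := by
          refine sum_le_sum fun p hp => ?_
          have : (1 : ℝ) ≤ p := by exact_mod_cast (hpr p hp).one_lt.le
          rw [div_le_one (by linarith)]
          exact this
      _ = _ := by simp
  -- first moment
  have hom : ∀ n : ℕ, (((PrI P Q).filter fun p => p ∣ n).card : ℝ) =
      ∑ p ∈ PrI P Q, if p ∣ n then (1 : ℝ) else 0 := by
    intro n
    rw [card_filter]
    push_cast
    rfl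
  have h1 : X * W - (PrI P Q).card ≤
      ∑ n ∈ IocN X (2 * X), (((PrI P Q).filter fun p => p ∣ n).card : ℝ) := by
    simp_rw [hom]
    rw [sum_comm, hW, mul_sum]
    have : ∀ p ∈ PrI P Q, X * (1 / (p : ℝ)) - 1 ≤
        ∑ n ∈ IocN X (2 * X), if p ∣ n then (1 : ℝ) else 0 := by
      intro p hp
      have h2 := (dens_mult hX0 p (hpr p hp).one_lt.le).1
      rw [mul_one_div]
      refine h2.trans (le_of_eq ?_)
      rw [card_filter]
      push_cast
      rfl
    refine le_trans (le_of_eq ?_) (sum_le_sum this)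
    rw [sum_sub_distrib]
    simp
  -- second moment
  have h2 : ∑ n ∈ IocN X (2 * X), (((PrI P Q).filter fun p => p ∣ n).card : ℝ) ^ 2 ≤
      X * W + (PrI P Q).card + (X * W ^ 2 + (PrI P Q).card ^ 2) := by
    have h3 : ∀ n : ℕ, (((PrI P Q).filter fun p => p ∣ n).card : ℝ) ^ 2 =
        ∑ p ∈ PrI P Q, ∑ r ∈ PrI P Q, if p ∣ n ∧ r ∣ n then (1 : ℝ) else 0 := by
      intro n
      rw [hom, sq, sum_mul_sum]
      refine sum_congr rfl fun p _ => sum_congr rfl fun r _ => ?_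
      by_cases ha : p ∣ n <;> by_cases hb : r ∣ n <;> simp [ha, hb]
    simp_rw [h3]
    rw [sum_comm]
    have h4 : ∀ p ∈ PrI P Q, ∀ r ∈ PrI P Q,
        ∑ n ∈ IocN X (2 * X), (if p ∣ n ∧ r ∣ n then (1 : ℝ) else 0) ≤
          (if p = r then X * (1 / (p : ℝ)) + 1 else 0) + (X * (1 / (p : ℝ)) * (1 / (r : ℝ)) + 1) := by
      intro p hp r hr
      have hp' := hpr p hp
      have hr' := hpr r hr
      have hp0 : (0 : ℝ) < p := by exact_mod_cast hp'.pos
      have hr0 : (0 : ℝ) < r := by exact_mod_cast hr'.pos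
      by_cases hpr2 : p = r
      · subst hpr2
        rw [if_pos rfl]
        have h5 := (dens_mult hX0 p hp'.one_lt.le).2
        have h6 : ∑ n ∈ IocN X (2 * X), (if p ∣ n ∧ p ∣ n then (1 : ℝ) else 0) =
            (((IocN X (2 * X)).filter fun n => p ∣ n).card : ℝ) := by
          rw [card_filter]
          push_cast
          simp
        rw [h6, mul_one_div]
        have : 0 ≤ X / p * (1 / (p : ℝ)) + 1 := by positivity
        linarith
      · rw [if_neg hpr2, zero_add]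
        have h5 := (dens_mult hX0 (p * r) (Nat.mul_pos hp'.pos hr'.pos)).2
        have h6 : ∑ n ∈ IocN X (2 * X), (if p ∣ n ∧ r ∣ n then (1 : ℝ) else 0) =
            (((IocN X (2 * X)).filter fun n => p * r ∣ n).card : ℝ) := by
          rw [card_filter]
          push_cast
          refine sum_congr rfl fun n _ => if_congr ?_ rfl rfl
          constructor
          · rintro ⟨ha, hb⟩
            exact ((Nat.coprime_primes hp' hr').2 hpr2).mul_dvd_of_dvd_of_dvd ha hb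
          · intro h
            exact ⟨(Dvd.intro _ rfl).trans h, (Dvd.intro_left _ rfl).trans h⟩
        rw [h6]
        push_cast at h5
        refine h5.trans (le_of_eq ?_)
        field_simp
    have h5 : ∑ p ∈ PrI P Q, ∑ n ∈ IocN X (2 * X), ∑ r ∈ PrI P Q,
        (if p ∣ n ∧ r ∣ n then (1 : ℝ) else 0) ≤ ∑ p ∈ PrI P Q, ∑ r ∈ PrI P Q,
          ((if p = r then X * (1 / (p : ℝ)) + 1 else 0) +
            (X * (1 / (p : ℝ)) * (1 / (r : ℝ)) + 1)) := by
      refine sum_le_sum fun p hp => ?_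
      rw [sum_comm]
      exact sum_le_sum fun r hr => h4 p hp r hr
    refine h5.trans (le_of_eq ?_)
    simp_rw [sum_add_distrib]
    have h6 : ∑ p ∈ PrI P Q, ∑ r ∈ PrI P Q, (if p = r then X * (1 / (p : ℝ)) + 1 else 0) =
        X * W + (PrI P Q).card := by
      rw [hW, mul_sum]
      have : ∀ p ∈ PrI P Q, ∑ r ∈ PrI P Q, (if p = r then X * (1 / (p : ℝ)) + 1 else 0) =
          X * (1 / (p : ℝ)) + 1 := by
        intro p hp
        rw [sum_ite_eq, if_pos hp]
      rw [sum_congr rfl this, sum_add_distrib]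
      simp
    have h7 : ∑ p ∈ PrI P Q, ∑ r ∈ PrI P Q, X * (1 / (p : ℝ)) * (1 / (r : ℝ)) = X * W ^ 2 := by
      simp_rw [← mul_sum, ← sum_mul, ← mul_sum]
      rw [← hW]
      ring
    have h8 : ∑ _p ∈ PrI P Q, ∑ _r ∈ PrI P Q, (1 : ℝ) = ((PrI P Q).card : ℝ) ^ 2 := by
      simp [sq]
    rw [h6, h7, h8]
  -- number of integers
  have h3 : ((IocN X (2 * X)).card : ℝ) ≤ X + 1 := by
    have := (dens_mult hX0 1 le_rfl).2
    simp only [isUnit_one, IsUnit.dvd, filter_true] at this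
    simpa using this
  have h4 : ∑ n ∈ IocN X (2 * X), ((((PrI P Q).filter fun p => p ∣ n).card : ℝ) - W) ^ 2 =
      ∑ n ∈ IocN X (2 * X), (((PrI P Q).filter fun p => p ∣ n).card : ℝ) ^ 2 -
      2 * W * ∑ n ∈ IocN X (2 * X), (((PrI P Q).filter fun p => p ∣ n).card : ℝ) +
      (IocN X (2 * X)).card * W ^ 2 := by
    rw [mul_sum, ← sum_sub_distrib, ← nsmul_eq_mul, ← sum_const, ← sum_add_distrib]
    exact sum_congr rfl fun n _ => by ring
  rw [h4]
  set K : ℝ := ((PrI P Q).card : ℝ) with hK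
  have hK0 : 0 ≤ K := by positivity
  have e1 : 2 * W * (X * W - K) ≤
      2 * W * ∑ n ∈ IocN X (2 * X), (((PrI P Q).filter fun p => p ∣ n).card : ℝ) :=
    mul_le_mul_of_nonneg_left h1 (by positivity)
  have e2 : ((IocN X (2 * X)).card : ℝ) * W ^ 2 ≤ (X + 1) * W ^ 2 :=
    mul_le_mul_of_nonneg_right h3 (by positivity)
  have e3 : K ^ 2 ≤ X := by nlinarith
  have e4 : K ≤ X := by linarith
  have e5 : W * K ≤ W * X := mul_le_mul_of_nonneg_left e4 hW0
  have e6 : W ^ 2 ≤ W * X := by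
    rw [sq]
    exact mul_le_mul_of_nonneg_left (hWcard.trans e4) hW0
  nlinarith

theorem st_DENS (h : ST_MER) : ST_DENS := by
  classical
  obtain ⟨C, hC, hlog⟩ := dens_log h
  refine ⟨8 + 2 * (C + 1), by linarith, fun P Q X hP hPQ hQX => ?_⟩
  have hQ2 : 2 < Q := by linarith
  have hX0 : 0 ≤ X := by nlinarith
  have hX1 : 1 ≤ X := by nlinarith
  set S := (IocN X (2 * X)).filter fun n => ¬ Hit P Q n with hS
  have hcard : Nat.card {n : ℕ // X < n ∧ (n : ℝ) ≤ 2 * X ∧ ¬ Hit P Q n} = S.card := by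
    refine Nat.subtype_card S fun n => ?_
    rw [hS, mem_filter, dens_mem hX0, and_assoc]
  rw [hcard]
  set W := ∑ p ∈ PrI P Q, 1 / (p : ℝ) with hW
  have hW0 : 0 ≤ W := sum_nonneg fun _ _ => by positivity
  have h3 : ((IocN X (2 * X)).card : ℝ) ≤ X + 1 := by
    have := (dens_mult hX0 1 le_rfl).2
    simp only [isUnit_one, IsUnit.dvd, filter_true] at this
    simpa using this
  have hS1 : (S.card : ℝ) ≤ 2 * X := by
    have : (S.card : ℝ) ≤ (IocN X (2 * X)).card := by exact_mod_cast card_filter_le _ _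
    linarith
  have hS0 : (0 : ℝ) ≤ S.card := by positivity
  have hvar : (S.card : ℝ) * W ^ 2 ≤ 4 * X * (W + 1) := by
    refine le_trans ?_ (dens_var hP hPQ hQX)
    rw [← nsmul_eq_mul, ← sum_const]
    refine le_trans (sum_le_sum fun n hn => ?_)
      (sum_le_sum_of_subset_of_nonneg (filter_subset _ _) fun n _ _ => sq_nonneg _)
    rw [hS, mem_filter] at hn
    have h4 : ((PrI P Q).filter fun p => p ∣ n) = ∅ := by
      rw [filter_eq_empty_iff]
      intro p hp hpn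
      apply hn.2
      unfold PrI IocN at hp
      rw [mem_filter, mem_Ioc, Nat.floor_lt (by linarith), Nat.le_floor_iff (by linarith)] at hp
      exact ⟨p, hp.2, hp.1.1, hp.1.2, hpn⟩
    rw [h4, card_empty, Nat.cast_zero, zero_sub, neg_sq]
  refine (mul_le_mul_of_nonneg_left (hlog P Q hP hPQ) hS0).trans ?_
  by_cases hW1 : W < 1
  · have e1 : (S.card : ℝ) * (W + C) ≤ 2 * X * (1 + C) :=
      mul_le_mul hS1 (by linarith) (by linarith) (by linarith)
    nlinarith
  · push Not at hW1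
    have e1 : (S.card : ℝ) * W ≤ 8 * X := by
      have hWpos : 0 < W := by linarith
      have e2 : (S.card : ℝ) * W * W ≤ 8 * X * W := by nlinarith
      exact le_of_mul_le_mul_right e2 hWpos
    have e2 : (S.card : ℝ) * C ≤ 2 * X * C := mul_le_mul_of_nonneg_right hS1 hC.le
    nlinarith

end Pool.Agent.Helper40.MR
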