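import Pool.Agent.Helper40.MR.Defs

set_option autoImplicit false

/-!
Module MAJ: major arcs.
-/

open Finset MeasureTheory
open scoped BigOperators Nat

namespace Pool.Agent.Helper40.MR

theorem maj_ee_add (x y : ℝ) : ee (x + y) = ee x * ee y := by
  unfold ee
  rw [← Complex.exp_add]
  congr 1
  push_cast
  ring

theorem maj_norm_ee (x : ℝ) : ‖ee x‖ = 1 := by
  unfold ee
  rw [Complex.norm_exp_ofReal_mul_I]

theorem maj_ee_int (k : ℤ) : ee k = 1 := by
  unfold ee
  have : (((2 * Real.pi * k : ℝ) : ℂ) * Complex.I) = k * (2 * Real.pi * Complex.I) := by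
    push_cast; ring
  rw [this]
  exact Complex.exp_int_mul_two_pi_mul_I k

theorem maj_ee_lip (x y : ℝ) : ‖ee x - ee y‖ ≤ 2 * Real.pi * |x - y| := by
  have h1 : ee x - ee y = ee y * (ee (x - y) - 1) := by
    rw [mul_sub, mul_one, ← maj_ee_add]; congr 2; ring
  rw [h1, norm_mul, maj_norm_ee, one_mul]
  unfold ee
  rw [mul_comm (((2 * Real.pi * (x - y) : ℝ)) : ℂ) Complex.I]
  refine (Real.norm_exp_I_mul_ofReal_sub_one_le).trans (le_of_eq ?_)
  rw [Real.norm_eq_abs, abs_mul, abs_of_pos (by positivity)]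

/-- the window is a half-open interval of `u` -/
theorem maj_indicator {E : Type} [NormedAddCommGroup E] (S : Finset ℕ) (δ : ℝ) (c : ℕ → E)
    (u : ℝ) : ∑ n ∈ S.filter (fun n : ℕ => u < Real.log n ∧ Real.log n ≤ u + δ), c n =
      ∑ n ∈ S, (Set.Ico (Real.log n - δ) (Real.log n)).indicator (fun _ => c n) u := by
  rw [sum_filter]
  refine sum_congr rfl fun n _ => ?_
  rw [Set.indicator_apply]
  refine if_congr ?_ rfl rfl
  rw [Set.mem_Ico]
  constructor
  · rintro ⟨h1, h2⟩; exact ⟨by linarith, h1⟩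
  · rintro ⟨h1, h2⟩; exact ⟨h2, by linarith⟩

theorem maj_integrable_one {E : Type} [NormedAddCommGroup E] (a b : ℝ) (c : E) :
    Integrable ((Set.Ico a b).indicator (fun _ : ℝ => c)) := by
  rw [integrable_indicator_iff measurableSet_Ico]
  exact integrableOn_const (by simp) (by simp)

theorem maj_integrable {E : Type} [NormedAddCommGroup E] (S : Finset ℕ) (δ : ℝ) (c : ℕ → E) :
    Integrable (fun u : ℝ =>
      ∑ n ∈ S.filter (fun n : ℕ => u < Real.log n ∧ Real.log n ≤ u + δ), c n) := by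
  simp_rw [maj_indicator]
  exact integrable_finsetSum _ fun n _ => maj_integrable_one _ _ _

theorem maj_integral (S : Finset ℕ) {δ : ℝ} (hδ : 0 ≤ δ) (c : ℕ → ℝ) :
    ∫ u : ℝ, ∑ n ∈ S.filter (fun n : ℕ => u < Real.log n ∧ Real.log n ≤ u + δ), c n =
      δ * ∑ n ∈ S, c n := by
  simp_rw [maj_indicator]
  rw [integral_finsetSum _ fun n _ => maj_integrable_one _ _ _, mul_sum]
  refine sum_congr rfl fun n _ => ?_
  rw [integral_indicator_const _ measurableSet_Ico, Real.volume_real_Ico_of_le (by linarith)]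
  rw [smul_eq_mul]
  ring

theorem maj_mem {X : ℝ} (hX : 0 ≤ X) (n : ℕ) :
    n ∈ IocN X (2 * X) ↔ X < n ∧ (n : ℝ) ≤ 2 * X := by
  unfold IocN
  rw [mem_Ioc, Nat.floor_lt hX, Nat.le_floor_iff (by linarith)]

theorem maj_lam_mul {m n : ℕ} (hm : 0 < m) (hn : 0 < n) : lam (m * n) = lam m * lam n := by
  unfold lam
  rw [if_neg (by positivity), if_neg hm.ne', if_neg hn.ne',
    (Nat.perm_primeFactorsList_mul hm.ne' hn.ne').length_eq, List.length_append, pow_add]

theorem maj_lam_norm (n : ℕ) : ‖lam n‖ ≤ 1 := by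
  unfold lam
  split_ifs
  · simp
  · simp

/-- characters detect the residue class -/
theorem maj_char (r : ℕ) (hr : 1 ≤ r) (F : ZMod r → ℂ) (hF : ∀ x, ‖F x‖ ≤ 1) :
    ∃ c : DirichletCharacter ℂ r → ℂ, (∀ χ, ‖c χ‖ ≤ 1) ∧
      ∀ k : ℕ, (if k.Coprime r then F k else 0) = ∑ χ, c χ * χ k := by
  classical
  have : NeZero r := ⟨by omega⟩
  have hφ : (0 : ℝ) < r.totient := by exact_mod_cast Nat.totient_pos.2 hr
  refine ⟨fun χ => (1 / (r.totient : ℂ)) * ∑ b : (ZMod r)ˣ, χ ((b⁻¹ : (ZMod r)ˣ) : ZMod r) *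
    F b, ?_, ?_⟩
  · intro χ
    rw [norm_mul, norm_div, norm_one, Complex.norm_natCast]
    have h1 : ‖∑ b : (ZMod r)ˣ, χ ((b⁻¹ : (ZMod r)ˣ) : ZMod r) * F b‖ ≤ r.totient := by
      refine (norm_sum_le _ _).trans ?_
      have : ∀ b ∈ (univ : Finset (ZMod r)ˣ),
          ‖χ ((b⁻¹ : (ZMod r)ˣ) : ZMod r) * F b‖ ≤ (1 : ℝ) := by
        intro b _
        rw [norm_mul]
        exact mul_le_one₀ (χ.norm_le_one _) (norm_nonneg _) (hF _)
      refine (sum_le_sum this).trans ?_
      rw [sum_const, card_univ, ZMod.card_units_eq_totient, nsmul_eq_mul, mul_one]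
    rw [one_div, inv_mul_le_iff₀ hφ, mul_one]
    exact h1
  · intro k
    have h1 : ∑ χ : DirichletCharacter ℂ r, (1 / (r.totient : ℂ)) *
        (∑ b : (ZMod r)ˣ, χ ((b⁻¹ : (ZMod r)ˣ) : ZMod r) * F b) * χ k =
        (1 / (r.totient : ℂ)) * ∑ b : (ZMod r)ˣ, F b * ∑ χ : DirichletCharacter ℂ r,
          χ ((b : ZMod r)⁻¹) * χ (k : ZMod r) := by
      simp_rw [mul_sum, sum_mul]
      rw [sum_comm]
      refine sum_congr rfl fun b _ => sum_congr rfl fun χ _ => ?_
      rw [← ZMod.inv_coe_unit b]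
      ring
    rw [h1]
    have h2 : ∀ b : (ZMod r)ˣ, ∑ χ : DirichletCharacter ℂ r,
        χ ((b : ZMod r)⁻¹) * χ (k : ZMod r) = if (b : ZMod r) = k then (r.totient : ℂ) else 0 :=
      fun b => DirichletCharacter.sum_char_inv_mul_char_eq ℂ b.isUnit _
    simp_rw [h2]
    by_cases hk : k.Coprime r
    · rw [if_pos hk]
      rw [sum_eq_single (ZMod.unitOfCoprime k hk)]
      · rw [if_pos (ZMod.coe_unitOfCoprime k hk), ZMod.coe_unitOfCoprime]
        have : (r.totient : ℂ) ≠ 0 := by exact_mod_cast hφ.ne'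
        field_simp
      · intro b _ hb
        rw [if_neg, mul_zero]
        intro h
        apply hb
        ext
        rw [ZMod.coe_unitOfCoprime]
        exact h
      · intro h
        exact absurd (mem_univ _) h
    · rw [if_neg hk]
      symm
      rw [mul_eq_zero]
      right
      refine sum_eq_zero fun b _ => ?_
      rw [if_neg, mul_zero]
      intro h
      apply hk
      rw [← ZMod.isUnit_iff_coprime, ← h]
      exact b.isUnit

/-- splitting a sum by the greatest common divisor with `q` -/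
theorem maj_split {X : ℝ} (hX : 0 ≤ X) (δ : ℝ) (q : ℕ) (hq : 1 ≤ q) (f : ℕ → ℂ) (u : ℝ) :
    ∑ n ∈ (IocN X (2 * X)).filter (fun n : ℕ => u < Real.log n ∧ Real.log n ≤ u + δ), f n =
      ∑ d ∈ q.divisors, ∑ k ∈ (IocN (X / d) (2 * (X / d))).filter
        (fun k : ℕ => u - Real.log d < Real.log k ∧ Real.log k ≤ u - Real.log d + δ),
          if k.Coprime (q / d) then f (d * k) else 0 := by
  classical
  rw [← sum_fiberwise_of_maps_to (s := (IocN X (2 * X)).filter
    (fun n : ℕ => u < Real.log n ∧ Real.log n ≤ u + δ)) (t := q.divisors)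
    (g := fun n => n.gcd q) (fun n _ => by
      rw [Nat.mem_divisors]; exact ⟨Nat.gcd_dvd_right n q, by omega⟩)]
  refine sum_congr rfl fun d hd => ?_
  rw [Nat.mem_divisors] at hd
  have hd0 : 0 < d := Nat.pos_of_dvd_of_pos hd.1 (by omega)
  have hdR : (0 : ℝ) < d := by exact_mod_cast hd0
  obtain ⟨r, hr⟩ := hd.1
  have hr0 : 0 < r := by
    rcases Nat.eq_zero_or_pos r with h | h
    · subst h; omega
    · exact h
  have hqd : q / d = r := by rw [hr]; exact Nat.mul_div_cancel_left r hd0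
  rw [hqd, ← sum_filter]
  symm
  refine sum_bij' (fun k _ => d * k) (fun n _ => n / d) ?_ ?_ ?_ ?_ ?_
  · intro k hk
    rw [mem_filter, mem_filter, maj_mem (by positivity)] at hk
    obtain ⟨⟨⟨h1, h2⟩, h3, h4⟩, h5⟩ := hk
    have hk0 : (0 : ℝ) < k := lt_of_le_of_lt (by positivity) h1
    rw [mem_filter, mem_filter, maj_mem hX]
    refine ⟨⟨⟨?_, ?_⟩, ?_, ?_⟩, ?_⟩
    · push_cast
      rw [div_lt_iff₀ hdR] at h1
      linarith
    · push_cast
      have : 2 * (X / d) = 2 * X / d := by ring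
      rw [this, le_div_iff₀ hdR] at h2
      linarith
    · push_cast
      rw [Real.log_mul hdR.ne' hk0.ne']
      linarith
    · push_cast
      rw [Real.log_mul hdR.ne' hk0.ne']
      linarith
    · rw [hr, Nat.gcd_mul_left, h5, mul_one]
  · intro n hn
    rw [mem_filter, mem_filter, maj_mem hX] at hn
    obtain ⟨⟨⟨h1, h2⟩, h3, h4⟩, h5⟩ := hn
    obtain ⟨k, rfl⟩ : d ∣ n := h5 ▸ Nat.gcd_dvd_left n q
    rw [Nat.mul_div_cancel_left k hd0]
    push_cast at h1 h2 h3 h4
    have hk0 : (0 : ℝ) < k := by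
      have : 0 < (d : ℝ) * k := lt_of_le_of_lt hX h1
      exact (mul_pos_iff_of_pos_left hdR).1 this
    rw [Real.log_mul hdR.ne' hk0.ne'] at h3 h4
    rw [mem_filter, mem_filter, maj_mem (by positivity)]
    refine ⟨⟨⟨?_, ?_⟩, by linarith, by linarith⟩, ?_⟩
    · rw [div_lt_iff₀ hdR]; linarith
    · have : 2 * (X / d) = 2 * X / d := by ring
      rw [this, le_div_iff₀ hdR]
      linarith
    · rw [hr, Nat.gcd_mul_left] at h5
      exact Nat.eq_of_mul_eq_mul_left hd0 (by rw [mul_one]; exact h5)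
  · intro k _
    exact Nat.mul_div_cancel_left k hd0
  · intro n hn
    rw [mem_filter] at hn
    exact Nat.mul_div_cancel' (hn.2 ▸ Nat.gcd_dvd_left n q)
  · intro k _
    rfl

/-- periodicity -/
theorem maj_ee_mod (a : ℤ) (r : ℕ) (hr : 1 ≤ r) (k : ℕ) :
    ee (((k : ZMod r).val : ℝ) * (a / r)) = ee (k * (a / r)) := by
  have hrR : (r : ℝ) ≠ 0 := by
    have : (0 : ℝ) < r := by exact_mod_cast hr
    exact this.ne'
  rw [ZMod.val_natCast]
  have h1 : ((k % r : ℕ) : ℝ) + r * ((k / r : ℕ) : ℝ) = k := by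
    exact_mod_cast Nat.mod_add_div k r
  have h2 : (k : ℝ) * (a / r) = ((k % r : ℕ) : ℝ) * (a / r) +
      ((a * ((k / r : ℕ) : ℤ) : ℤ) : ℝ) := by
    rw [Int.cast_mul, Int.cast_natCast]
    generalize ((k / r : ℕ) : ℝ) = y at h1 ⊢
    generalize ((k % r : ℕ) : ℝ) = z at h1 ⊢
    rw [← h1]
    field_simp
  rw [h2, maj_ee_add, maj_ee_int, mul_one]

/-- the sum over the integers with a given greatest common divisor -/
theorem maj_part {X W : ℝ} (hX : 0 ≤ X) (s : ℕ → Prop)
    (hs : ∀ d n : ℕ, 1 ≤ d → (d : ℝ) ≤ W → 0 < n → (s (d * n) ↔ s n)) (a : ℤ) (d r : ℕ)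
    (hd : 1 ≤ d) (hdW : (d : ℝ) ≤ W) (hr : 1 ≤ r) (δ v : ℝ) :
    ‖∑ k ∈ (IocN (X / d) (2 * (X / d))).filter
        (fun k : ℕ => v < Real.log k ∧ Real.log k ≤ v + δ),
          (if k.Coprime r then res (fun n => X < n ∧ (n : ℝ) ≤ 2 * X ∧ s n) lam (d * k) *
            ee (((d * k : ℕ) : ℝ) * (a / (d * r : ℕ))) else 0)‖ ≤
      ∑ χ : DirichletCharacter ℂ r, ‖∑ k ∈ (IocN (X / d) (2 * (X / d))).filter
        (fun k : ℕ => v < Real.log k ∧ Real.log k ≤ v + δ), res s (lch χ) k‖ := by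
  classical
  have hdR : (0 : ℝ) < d := by exact_mod_cast hd
  have hrR : (0 : ℝ) < r := by exact_mod_cast hr
  obtain ⟨c, hc1, hc2⟩ := maj_char r hr (fun x => ee ((x.val : ℝ) * (a / r)))
    (fun x => (maj_norm_ee _).le)
  have h1 : ∀ k ∈ (IocN (X / d) (2 * (X / d))).filter
        (fun k : ℕ => v < Real.log k ∧ Real.log k ≤ v + δ),
      (if k.Coprime r then res (fun n => X < n ∧ (n : ℝ) ≤ 2 * X ∧ s n) lam (d * k) *
            ee (((d * k : ℕ) : ℝ) * (a / (d * r : ℕ))) else 0) =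
        lam d * ∑ χ, c χ * res s (lch χ) k := by
    intro k hk
    rw [mem_filter, maj_mem (by positivity)] at hk
    obtain ⟨⟨h1, h2⟩, -⟩ := hk
    have hk0 : (0 : ℝ) < k := lt_of_le_of_lt (by positivity) h1
    have hk0' : 0 < k := by exact_mod_cast hk0
    have h3 : X < ((d * k : ℕ) : ℝ) := by
      push_cast
      rw [div_lt_iff₀ hdR] at h1
      linarith
    have h4 : ((d * k : ℕ) : ℝ) ≤ 2 * X := by
      push_cast
      have : 2 * (X / d) = 2 * X / d := by ring
      rw [this, le_div_iff₀ hdR] at h2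
      linarith
    have h5 : res (fun n => X < n ∧ (n : ℝ) ≤ 2 * X ∧ s n) lam (d * k) =
        lam d * res s lam k := by
      unfold res
      have h6 := hs d k hd hdW hk0'
      by_cases hsk : s k
      · rw [if_pos ⟨h3, h4, h6.2 hsk⟩, if_pos hsk, maj_lam_mul (by omega) hk0']
      · rw [if_neg, if_neg hsk, mul_zero]
        rintro ⟨-, -, h7⟩
        exact hsk (h6.1 h7)
    have h6 : ee (((d * k : ℕ) : ℝ) * (a / (d * r : ℕ))) = ee (k * (a / r)) := by
      congr 1
      push_cast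
      field_simp
    rw [h5, h6]
    have h7 : (if k.Coprime r then lam d * res s lam k * ee (k * (a / r)) else 0) =
        lam d * res s lam k * (if k.Coprime r then ee (((k : ZMod r).val : ℝ) * (a / r)) else 0) := by
      rw [maj_ee_mod a r hr k]
      split_ifs <;> simp
    rw [h7, hc2 k, mul_sum, mul_sum]
    refine sum_congr rfl fun χ _ => ?_
    unfold res lch
    split_ifs
    · ring
    · simp
  rw [sum_congr rfl h1, ← mul_sum, sum_comm]
  rw [norm_mul]
  refine (mul_le_of_le_one_left (norm_nonneg _) (maj_lam_norm d)).trans ?_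
  refine (norm_sum_le _ _).trans (sum_le_sum fun χ _ => ?_)
  rw [← mul_sum, norm_mul]
  exact mul_le_of_le_one_left (norm_nonneg _) (hc1 χ)

theorem maj_sum_inv_sq (q : ℕ) : ∑ d ∈ q.divisors, ((d : ℝ) ^ 2)⁻¹ ≤ 2 := by
  have h1 := sum_Ioo_inv_sq_le (α := ℝ) 0 (q + 1)
  have h2 : ∑ d ∈ q.divisors, ((d : ℝ) ^ 2)⁻¹ ≤ ∑ i ∈ Ioo 0 (q + 1), ((i : ℝ) ^ 2)⁻¹ := by
    refine sum_le_sum_of_subset_of_nonneg ?_ fun _ _ _ => by positivity
    intro d hd
    have h3 := Nat.pos_of_mem_divisors hd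
    have h4 := Nat.divisor_le hd
    rw [mem_Ioo]
    omega
  refine h2.trans (h1.trans ?_)
  norm_num

theorem st_MAJ (hW : ST_WIN) : ST_MAJ := by
  classical
  obtain ⟨C, hC, hWin⟩ := hW
  refine ⟨2 * C + 16 * Real.pi + 2, by positivity, ?_⟩
  intro X W E L s hW1 hWL hLX hE hs hint θ a q hq hqW hθ
  have hW0 : (0 : ℝ) < W := by linarith
  have hL1 : (1 : ℝ) ≤ L := by nlinarith
  have hX1 : (1 : ℝ) ≤ X := hL1.trans hLX
  have hX0 : (0 : ℝ) < X := by linarith
  have hqR : (1 : ℝ) ≤ q := by exact_mod_cast hq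
  set δ : ℝ := L / (W ^ 2 * X) with hδ
  have hδ0 : 0 < δ := by positivity
  have hW2 : 1 ≤ W ^ 2 := by nlinarith
  have hδ1 : δ ≤ 1 := by
    rw [hδ, div_le_one (by positivity)]
    nlinarith
  have hXδ : X * δ = L / W ^ 2 := by
    rw [hδ]; field_simp
  have hXδ1 : 1 ≤ X * δ := by
    rw [hXδ, le_div_iff₀ (by positivity)]; linarith
  -- the coefficients
  set A : ℕ → ℂ := res (fun n => X < n ∧ (n : ℝ) ≤ 2 * X ∧ s n) lam with hA
  have hA1 : ∀ n, ‖A n‖ ≤ 1 := by
    intro n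
    rw [hA]
    unfold res
    split_ifs
    · exact maj_lam_norm n
    · simp
  have hA0 : ∀ n : ℕ, (n : ℝ) ≤ X ∨ 2 * X < n → A n = 0 := by
    intro n hn
    rw [hA]
    unfold res
    rw [if_neg]
    rintro ⟨h1, h2, -⟩
    rcases hn with h | h <;> linarith
  have hstart : ∑ m ∈ range (⌊2 * X⌋₊ + 1), ‖∑ j ∈ range L, A (m + j) * ee (j * θ)‖ =
      ∑ m ∈ range (⌊2 * X⌋₊ + 1), ‖∑ j ∈ range L,
        (fun n : ℕ => A n * ee (n * θ)) (m + j)‖ := by
    refine sum_congr rfl fun m _ => ?_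
    have : ∑ j ∈ range L, (fun n : ℕ => A n * ee (n * θ)) (m + j) =
        ee (m * θ) * ∑ j ∈ range L, A (m + j) * ee (j * θ) := by
      rw [mul_sum]
      refine sum_congr rfl fun j _ => ?_
      simp only
      push_cast
      rw [add_mul, maj_ee_add]
      ring
    rw [this, norm_mul, maj_norm_ee, one_mul]
  rw [hstart]
  have h1 := hWin X δ L (fun n : ℕ => A n * ee (n * θ))
    (fun n => by rw [norm_mul, maj_norm_ee, mul_one]; exact hA1 n) hδ0 hδ1 hX1 hLX
    (fun n hn => by simp only [hA0 n hn, zero_mul])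
  refine h1.trans ?_
  -- comparison with the rational frequency
  set c₀ : ℝ := 8 * Real.pi / W with hc₀
  have hβ : ∀ u : ℝ, ‖∑ n ∈ (IocN X (2 * X)).filter
      (fun n : ℕ => u < Real.log n ∧ Real.log n ≤ u + δ), A n * ee (n * θ)‖ ≤
      ‖∑ n ∈ (IocN X (2 * X)).filter
      (fun n : ℕ => u < Real.log n ∧ Real.log n ≤ u + δ), A n * ee (n * (a / q))‖ +
      ∑ n ∈ (IocN X (2 * X)).filter
      (fun n : ℕ => u < Real.log n ∧ Real.log n ≤ u + δ), c₀ := by
    intro u
    set β : ℝ := θ - a / q with hβdef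
    have e1 : ∑ n ∈ (IocN X (2 * X)).filter
      (fun n : ℕ => u < Real.log n ∧ Real.log n ≤ u + δ), A n * ee (n * θ) =
      ee (Real.exp u * β) * ∑ n ∈ (IocN X (2 * X)).filter
      (fun n : ℕ => u < Real.log n ∧ Real.log n ≤ u + δ), A n * ee (n * (a / q)) +
      ∑ n ∈ (IocN X (2 * X)).filter
      (fun n : ℕ => u < Real.log n ∧ Real.log n ≤ u + δ), A n * ee (n * (a / q)) *
        (ee (n * β) - ee (Real.exp u * β)) := by
      rw [mul_sum, ← sum_add_distrib]
      refine sum_congr rfl fun n _ => ?_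
      have : (n : ℝ) * θ = n * (a / q) + n * β := by rw [hβdef]; ring
      rw [this, maj_ee_add]
      ring
    rw [e1]
    refine (norm_add_le _ _).trans ?_
    rw [norm_mul, maj_norm_ee, one_mul]
    refine add_le_add le_rfl ((norm_sum_le _ _).trans (sum_le_sum fun n hn => ?_))
    rw [norm_mul, norm_mul, maj_norm_ee, mul_one]
    refine (mul_le_of_le_one_left (norm_nonneg _) (hA1 n)).trans ?_
    refine (maj_ee_lip _ _).trans ?_
    rw [mem_filter, maj_mem hX0.le] at hn
    obtain ⟨⟨hn1, hn2⟩, hn3, hn4⟩ := hn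
    have hn0 : (0 : ℝ) < n := by linarith
    have g1 : Real.exp u < n := by
      rw [← Real.exp_log hn0]; exact Real.exp_lt_exp.2 hn3
    have g2 : (n : ℝ) ≤ Real.exp u * Real.exp δ := by
      rw [← Real.exp_add]
      calc (n : ℝ) = Real.exp (Real.log n) := (Real.exp_log hn0).symm
        _ ≤ _ := Real.exp_le_exp.2 hn4
    have g3 : Real.exp δ ≤ 1 + 2 * δ := by
      have := Real.abs_exp_sub_one_le (x := δ) (by rw [abs_of_pos hδ0]; exact hδ1)
      rw [abs_of_pos hδ0] at this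
      have := le_abs_self (Real.exp δ - 1)
      linarith
    have g4 : |(n : ℝ) - Real.exp u| ≤ 4 * X * δ := by
      rw [abs_of_pos (by linarith)]
      have hexp : 0 < Real.exp u := Real.exp_pos u
      nlinarith
    rw [show (n : ℝ) * β - Real.exp u * β = (n - Real.exp u) * β by ring, abs_mul]
    have g5 : |(n : ℝ) - Real.exp u| * |β| ≤ 4 * X * δ * (W / (q * L)) :=
      mul_le_mul g4 hθ (abs_nonneg _) (by positivity)
    have g6 : 4 * X * δ * (W / (q * L)) = 4 / (q * W) := by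
      rw [show 4 * X * δ = 4 * (X * δ) by ring, hXδ]
      field_simp
    have g7 : 4 / (q * W) ≤ 4 / W := by
      refine div_le_div_of_nonneg_left (by norm_num) hW0 ?_
      nlinarith
    have hpi := Real.pi_pos
    calc 2 * Real.pi * (|(n : ℝ) - Real.exp u| * |β|) ≤ 2 * Real.pi * (4 / W) := by
          refine mul_le_mul_of_nonneg_left ?_ (by positivity)
          linarith
      _ = c₀ := by rw [hc₀]; ring
  -- the main term
  have hmain : ∀ u : ℝ, ‖∑ n ∈ (IocN X (2 * X)).filter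
      (fun n : ℕ => u < Real.log n ∧ Real.log n ≤ u + δ), A n * ee (n * (a / q))‖ ≤
      ∑ d ∈ q.divisors, ∑ χ : DirichletCharacter ℂ (q / d),
        ‖∑ k ∈ (IocN (X / d) (2 * (X / d))).filter
        (fun k : ℕ => u - Real.log d < Real.log k ∧ Real.log k ≤ u - Real.log d + δ),
          res s (lch χ) k‖ := by
    intro u
    rw [maj_split hX0.le δ q hq]
    refine (norm_sum_le _ _).trans (sum_le_sum fun d hd => ?_)
    have hd0 := Nat.pos_of_mem_divisors hd
    have hdq := Nat.divisor_le hd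
    rw [Nat.mem_divisors] at hd
    have hr0 : 1 ≤ q / d := (Nat.one_le_div_iff hd0).2 hdq
    have hdW : (d : ℝ) ≤ W := by
      have : (d : ℝ) ≤ q := by exact_mod_cast hdq
      linarith
    have := maj_part (X := X) (W := W) hX0.le s hs a d (q / d) hd0 hdW hr0 δ (u - Real.log d)
    rw [Nat.mul_div_cancel' hd.1] at this
    exact this
  have hI : ∀ (d : ℕ) (χ : DirichletCharacter ℂ (q / d)), Integrable fun u : ℝ =>
      ‖∑ k ∈ (IocN (X / d) (2 * (X / d))).filter
        (fun k : ℕ => u - Real.log d < Real.log k ∧ Real.log k ≤ u - Real.log d + δ),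
          res s (lch χ) k‖ := by
    intro d χ
    exact (maj_integrable (IocN (X / d) (2 * (X / d))) δ (res s (lch χ))).norm.comp_sub_right
      (Real.log d)
  have hfin : ∀ (d : ℕ), d ∈ q.divisors → ∀ χ : DirichletCharacter ℂ (q / d), ∫ u : ℝ,
      ‖∑ k ∈ (IocN (X / d) (2 * (X / d))).filter
        (fun k : ℕ => u - Real.log d < Real.log k ∧ Real.log k ≤ u - Real.log d + δ),
          res s (lch χ) k‖ ≤ L / (W ^ 2 * d) * E := by
    intro d hd χ
    have hd0 := Nat.pos_of_mem_divisors hd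
    have hdq := Nat.divisor_le hd
    have hr0 : 1 ≤ q / d := (Nat.one_le_div_iff hd0).2 hdq
    have hdW : (d : ℝ) ≤ W := by
      have : (d : ℝ) ≤ q := by exact_mod_cast hdq
      linarith
    have hrW : ((q / d : ℕ) : ℝ) ≤ W := by
      have : ((q / d : ℕ) : ℝ) ≤ q := by exact_mod_cast Nat.div_le_self q d
      linarith
    have := integral_sub_right_eq_self (μ := volume) (fun u : ℝ =>
      ‖∑ k ∈ (IocN (X / d) (2 * (X / d))).filter
        (fun k : ℕ => u < Real.log k ∧ Real.log k ≤ u + δ),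
          res s (lch χ) k‖) (Real.log d)
    rw [this]
    exact hint d (q / d) χ hd0 hdW hr0 hrW
  have hcardχ : ∀ d ∈ q.divisors, (Fintype.card (DirichletCharacter ℂ (q / d)) : ℝ) ≤
      ((q / d : ℕ) : ℝ) := by
    intro d hd
    have hd0 := Nat.pos_of_mem_divisors hd
    have hdq := Nat.divisor_le hd
    have hr0 : 1 ≤ q / d := (Nat.one_le_div_iff hd0).2 hdq
    have : NeZero (q / d) := ⟨by omega⟩
    have h2 := DirichletCharacter.card_eq_totient_of_hasEnoughRootsOfUnity ℂ (q / d)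
    rw [← Nat.card_eq_fintype_card, h2]
    exact_mod_cast Nat.totient_le _
  have hmain2 : ∫ u : ℝ, ‖∑ n ∈ (IocN X (2 * X)).filter
      (fun n : ℕ => u < Real.log n ∧ Real.log n ≤ u + δ), A n * ee (n * (a / q))‖ ≤
      2 * (q * L / W ^ 2 * E) := by
    have k1 : ∫ u : ℝ, ‖∑ n ∈ (IocN X (2 * X)).filter
      (fun n : ℕ => u < Real.log n ∧ Real.log n ≤ u + δ), A n * ee (n * (a / q))‖ ≤
      ∫ u : ℝ, ∑ d ∈ q.divisors, ∑ χ : DirichletCharacter ℂ (q / d),
        ‖∑ k ∈ (IocN (X / d) (2 * (X / d))).filter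
        (fun k : ℕ => u - Real.log d < Real.log k ∧ Real.log k ≤ u - Real.log d + δ),
          res s (lch χ) k‖ :=
      integral_mono (maj_integrable _ _ _).norm
        (integrable_finsetSum _ fun d _ => integrable_finsetSum _ fun χ _ => hI d χ) hmain
    refine k1.trans ?_
    rw [integral_finsetSum _ fun d _ => integrable_finsetSum _ fun χ _ => hI d χ]
    have k2 : ∀ d ∈ q.divisors, ∫ u : ℝ, ∑ χ : DirichletCharacter ℂ (q / d),
        ‖∑ k ∈ (IocN (X / d) (2 * (X / d))).filter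
        (fun k : ℕ => u - Real.log d < Real.log k ∧ Real.log k ≤ u - Real.log d + δ),
          res s (lch χ) k‖ ≤ q * L / W ^ 2 * E * ((d : ℝ) ^ 2)⁻¹ := by
      intro d hd
      rw [integral_finsetSum _ fun χ _ => hI d χ]
      refine (sum_le_sum fun χ _ => hfin d hd χ).trans ?_
      rw [sum_const, card_univ, nsmul_eq_mul]
      have hd0 : (0 : ℝ) < d := by exact_mod_cast Nat.pos_of_mem_divisors hd
      have k3 : ((q / d : ℕ) : ℝ) = q / d := by
        rw [Nat.mem_divisors] at hd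
        exact Nat.cast_div hd.1 hd0.ne'
      have k4 := hcardχ d hd
      rw [k3] at k4
      calc (Fintype.card (DirichletCharacter ℂ (q / d)) : ℝ) * (L / (W ^ 2 * d) * E) ≤
          (q / d) * (L / (W ^ 2 * d) * E) :=
            mul_le_mul_of_nonneg_right k4 (by positivity)
        _ = _ := by field_simp
    refine (sum_le_sum k2).trans ?_
    rw [← mul_sum]
    have k5 := maj_sum_inv_sq q
    calc q * L / W ^ 2 * E * ∑ d ∈ q.divisors, ((d : ℝ) ^ 2)⁻¹ ≤ q * L / W ^ 2 * E * 2 :=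
          mul_le_mul_of_nonneg_left k5 (by positivity)
      _ = _ := by ring
  -- the integral
  have hcard : ((IocN X (2 * X)).card : ℝ) ≤ 2 * X := by
    unfold IocN
    rw [Nat.card_Ioc]
    have k1 : ((⌊2 * X⌋₊ - ⌊X⌋₊ : ℕ) : ℝ) ≤ (⌊2 * X⌋₊ : ℝ) := by
      exact_mod_cast Nat.sub_le _ _
    exact k1.trans (Nat.floor_le (by linarith))
  have hJ : ∫ u : ℝ, ‖∑ n ∈ (IocN X (2 * X)).filter
      (fun n : ℕ => u < Real.log n ∧ Real.log n ≤ u + δ), A n * ee (n * θ)‖ ≤
      2 * (q * L / W ^ 2 * E) + δ * (2 * X * c₀) := by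
    have k1 : ∫ u : ℝ, ‖∑ n ∈ (IocN X (2 * X)).filter
      (fun n : ℕ => u < Real.log n ∧ Real.log n ≤ u + δ), A n * ee (n * θ)‖ ≤
      ∫ u : ℝ, (‖∑ n ∈ (IocN X (2 * X)).filter
      (fun n : ℕ => u < Real.log n ∧ Real.log n ≤ u + δ), A n * ee (n * (a / q))‖ +
      ∑ n ∈ (IocN X (2 * X)).filter
      (fun n : ℕ => u < Real.log n ∧ Real.log n ≤ u + δ), c₀) :=
      integral_mono (maj_integrable _ _ _).norm
        ((maj_integrable _ _ _).norm.add (maj_integrable _ _ _)) hβ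
    refine k1.trans ?_
    rw [integral_add (maj_integrable _ _ _).norm (maj_integrable _ _ _),
      maj_integral _ hδ0.le (fun _ => c₀), sum_const, nsmul_eq_mul]
    have hc0 : 0 ≤ c₀ := by positivity
    have k2 : δ * (((IocN X (2 * X)).card : ℝ) * c₀) ≤ δ * (2 * X * c₀) :=
      mul_le_mul_of_nonneg_left (mul_le_mul_of_nonneg_right hcard hc0) hδ0.le
    linarith
  have hLδ : (L : ℝ) / δ = W ^ 2 * X := by
    rw [hδ]; field_simp
  have hLpos : (0 : ℝ) < L := by linarith
  have f1 : (L : ℝ) / δ * (∫ u : ℝ, ‖∑ n ∈ (IocN X (2 * X)).filter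
      (fun n : ℕ => u < Real.log n ∧ Real.log n ≤ u + δ), A n * ee (n * θ)‖) ≤
      2 * X * L * (W * E) + 16 * Real.pi * X * L * (1 / W) := by
    rw [hLδ]
    refine (mul_le_mul_of_nonneg_left hJ (by positivity)).trans ?_
    have k1 : W ^ 2 * X * (2 * (q * L / W ^ 2 * E) + δ * (2 * X * c₀)) =
        2 * X * L * (q * E) + 16 * Real.pi * X * L * (1 / W) := by
      rw [hδ, hc₀]
      field_simp
      ring
    rw [k1]
    have k2 : 2 * X * L * (q * E) ≤ 2 * X * L * (W * E) := by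
      refine mul_le_mul_of_nonneg_left (mul_le_mul_of_nonneg_right hqW hE) (by positivity)
    linarith
  have f2 : C * X * (X * δ + 1) ≤ 2 * C * X * L * (1 / W) := by
    have k1 : X * δ + 1 ≤ 2 * (L * (1 / W)) := by
      have k2 : X * δ ≤ L * (1 / W) := by
        rw [hXδ, mul_one_div]
        refine div_le_div_of_nonneg_left hLpos.le hW0 ?_
        nlinarith
      linarith
    calc C * X * (X * δ + 1) ≤ C * X * (2 * (L * (1 / W))) :=
          mul_le_mul_of_nonneg_left k1 (by positivity)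
      _ = _ := by ring
  have f3 : 0 ≤ X * L * (W * E) := by positivity
  have f4 : 0 ≤ X * L * (1 / W) := by positivity
  have hpi := Real.pi_pos
  have f5 : 0 ≤ (2 * C + 16 * Real.pi) * (X * L * (W * E)) := by positivity
  have f6 : (2 * C + 16 * Real.pi + 2) * X * L * (W * E + 1 / W) =
      (2 * C + 16 * Real.pi) * (X * L * (W * E)) + 2 * X * L * (W * E) +
      16 * Real.pi * X * L * (1 / W) + 2 * C * X * L * (1 / W) + 2 * (X * L * (1 / W)) := by ring
  rw [f6]
  linarith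

end Pool.Agent.Helper40.MR
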